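import Pool.Agent.N463.HW.Stm

/-! Project HW (helper463), part IFT (helper572): the solution by the inverse function theorem and
the intermediate value theorem. -/

set_option autoImplicit false

open Set Filter Topology

namespace Pool.Agent.N572.HWIFT

open Pool.Agent.N463.HW

/-! ### the inverse function theorem -/

theorem exists_inv {E F : Type} [NormedAddCommGroup E] [NormedSpace ℝ E] [CompleteSpace E]
    [NormedAddCommGroup F] [NormedSpace ℝ F] {Φ : E → F} {a : E} {T : E ≃L[ℝ] F}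
    (hΦ : ContDiff ℝ 2 Φ) (hT : HasFDerivAt Φ (T : E →L[ℝ] F) a) :
    ∃ Ψ : F → E, ContDiffAt ℝ 2 Ψ (Φ a) ∧ Ψ (Φ a) = a ∧ (∀ᶠ y in 𝓝 (Φ a), Φ (Ψ y) = y) ∧
      ∀ᶠ x in 𝓝 a, Ψ (Φ x) = x := by
  have h0 : (2 : WithTop ℕ∞) ≠ 0 := two_ne_zero
  have hc : ContDiffAt ℝ 2 Φ a := hΦ.contDiffAt
  refine ⟨hc.localInverse hT h0, hc.to_localInverse hT h0, hc.localInverse_apply_image hT h0,
    (hc.hasStrictFDerivAt' hT h0).eventually_right_inverse,
    (hc.hasStrictFDerivAt' hT h0).eventually_left_inverse⟩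

/-! ### diagonal operators -/

lemma memX_iff (u : ℕ → ℝ) : Memℓp u 1 ↔ Summable (fun n => ‖u n‖) := by
  rw [memℓp_gen_iff (by norm_num)]
  simp

lemma X_summable (u : X) : Summable (fun n => ‖u n‖) := (memX_iff _).1 u.2

lemma X_norm (u : X) : ‖u‖ = ∑' n, ‖u n‖ := by
  rw [lp.norm_eq_tsum_rpow (by norm_num)]
  simp

/-- elements of `X` from summable families -/
noncomputable def mkX (u : ℕ → ℝ) (h : Summable (fun n => ‖u n‖)) : X := ⟨u, (memX_iff u).2 h⟩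

lemma dg_summ (c : ℕ → ℝ) (hc : ∀ n, |c n| ≤ 2) (u : X) : Summable (fun n => ‖c n * u n‖) := by
  refine Summable.of_nonneg_of_le (fun n => norm_nonneg _) (fun n => ?_)
    ((X_summable u).mul_left 2)
  rw [norm_mul]
  exact mul_le_mul_of_nonneg_right (hc n) (norm_nonneg _)

/-- the diagonal operator -/
noncomputable def dg (c : ℕ → ℝ) (hc : ∀ n, |c n| ≤ 2) : X →L[ℝ] X :=
  LinearMap.mkContinuous
    { toFun := fun u => mkX (fun n => c n * u n) (dg_summ c hc u)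
      map_add' := fun u v => by
        ext n
        show c n * (u n + v n) = c n * u n + c n * v n
        ring
      map_smul' := fun r u => by
        ext n
        show c n * (r * u n) = r * (c n * u n)
        ring } 2 (fun u => by
      rw [X_norm, X_norm, ← tsum_mul_left]
      refine Summable.tsum_le_tsum (fun n => ?_) (dg_summ c hc u) ((X_summable u).mul_left 2)
      show ‖c n * u n‖ ≤ 2 * ‖u n‖
      rw [norm_mul]
      exact mul_le_mul_of_nonneg_right (hc n) (norm_nonneg _))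

lemma dg_apply (c : ℕ → ℝ) (hc : ∀ n, |c n| ≤ 2) (u : X) (n : ℕ) : (dg c hc u) n = c n * u n := rfl

lemma c1_le (n : ℕ) : |1 - 1 / ((n : ℝ) + 2)| ≤ 2 := by
  have h1 : (0 : ℝ) < (n : ℝ) + 2 := by positivity
  have h2 : 1 / ((n : ℝ) + 2) ≤ 1 := by
    rw [div_le_one h1]
    have := Nat.cast_nonneg (α := ℝ) n
    linarith
  have h3 : 0 < 1 / ((n : ℝ) + 2) := by positivity
  rw [abs_le]
  constructor <;> linarith

lemma c2_le (n : ℕ) : |((n : ℝ) + 2) / ((n : ℝ) + 1)| ≤ 2 := by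
  have h0 := Nat.cast_nonneg (α := ℝ) n
  rw [abs_of_nonneg (by positivity), div_le_iff₀ (by positivity)]
  linarith

/-- the diagonal isomorphism -/
noncomputable def DD : X ≃L[ℝ] X :=
  ContinuousLinearEquiv.equivOfInverse (dg (fun n => 1 - 1 / ((n : ℝ) + 2)) c1_le)
    (dg (fun n => ((n : ℝ) + 2) / ((n : ℝ) + 1)) c2_le)
    (fun u => by
      ext n
      show ((n : ℝ) + 2) / ((n : ℝ) + 1) * ((1 - 1 / ((n : ℝ) + 2)) * u n) = u n
      have h1 : (n : ℝ) + 2 ≠ 0 := by positivity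
      have h2 : (n : ℝ) + 1 ≠ 0 := by positivity
      field_simp
      ring)
    (fun u => by
      ext n
      show (1 - 1 / ((n : ℝ) + 2)) * (((n : ℝ) + 2) / ((n : ℝ) + 1) * u n) = u n
      have h1 : (n : ℝ) + 2 ≠ 0 := by positivity
      have h2 : (n : ℝ) + 1 ≠ 0 := by positivity
      field_simp
      ring)

lemma DD_apply (u : X) (n : ℕ) : (DD u) n = (1 - 1 / ((n : ℝ) + 2)) * u n := rfl

/-! ### the negative coefficients -/

lemma inj : Function.Injective (fun n : ℕ => (-((n : ℤ) + 2))) := by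
  intro a b h
  simp only at h
  omega

lemma Pi_summ (w : W) : Summable (fun n : ℕ => ‖cf (-((n : ℤ) + 2)) w‖) :=
  (cf_summable w).comp_injective inj

/-- the coefficients with the numbers `-2, -3, …` -/
noncomputable def Pi' : W →L[ℝ] X :=
  LinearMap.mkContinuous
    { toFun := fun w => mkX (fun n => cf (-((n : ℤ) + 2)) w) (Pi_summ w)
      map_add' := fun u v => by
        ext n
        exact map_add (cf (-((n : ℤ) + 2))) u v
      map_smul' := fun r u => by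
        ext n
        exact map_smul (cf (-((n : ℤ) + 2))) r u } 1 (fun w => by
      rw [one_mul, X_norm]
      refine le_trans ?_ (cf_tsum_le w)
      exact tsum_comp_le_tsum_of_inj (cf_summable w) (fun _ => abs_nonneg _) inj)

lemma Pi_apply (w : W) (n : ℕ) : (Pi' w) n = cf (-((n : ℤ) + 2)) w := rfl

lemma Pi_one (r : ℝ) : Pi' (r • (1 : W)) = 0 := by
  ext n
  rw [Pi_apply, map_smul, cf_one, if_neg (by omega), smul_zero]
  rfl

/-! ### signs -/

lemma pos_of_deriv {g : ℝ → ℝ} {c : ℝ} (hg : HasDerivAt g c 0) (h0 : g 0 = 0) (hc : 0 < c) :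
    ∀ᶠ e in 𝓝[>] (0 : ℝ), 0 < g e := by
  rw [eventually_nhdsWithin_iff]
  filter_upwards [hg.isLittleO.def (show 0 < c / 2 by positivity)] with e he he0
  have he1 : (0 : ℝ) < e := he0
  rw [h0, sub_zero, sub_zero, smul_eq_mul, Real.norm_eq_abs, Real.norm_eq_abs,
    abs_of_pos he1] at he
  have h1 := (abs_le.1 he).1
  nlinarith [mul_pos hc he1]

/-! ### the theorem -/

theorem t_IFT (h1 : S_SMO) (h2 : S_CFL) : S_IFT := by
  obtain ⟨hsm, hP0, hder⟩ := h1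
  intro δ hδ
  obtain ⟨F, hF⟩ : ∃ F : ℝ × ℝ × X → W, F = fun p => NN p.1 p.2.1 p.2.2 := ⟨_, rfl⟩
  have hFs : ContDiff ℝ 2 F := by rw [hF]; exact hsm
  have hFP : ∀ P : ℝ, F (P, 0, 0) = (1 + P) • (1 : W) := by
    intro P
    rw [hF]
    exact hP0 P
  obtain ⟨Φ, hΦ⟩ : ∃ Φ : ℝ × ℝ × X → ℝ × ℝ × X, Φ = fun p => (p.1, p.2.1, Pi' (F p)) := ⟨_, rfl⟩
  have hΦs : ContDiff ℝ 2 Φ := by
    rw [hΦ]
    exact contDiff_fst.prodMk ((contDiff_fst.comp contDiff_snd).prodMk (Pi'.contDiff.comp hFs))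
  have hΦP : ∀ P : ℝ, Φ (P, 0, 0) = (P, 0, 0) := by
    intro P
    rw [hΦ]
    simp only
    rw [hFP, Pi_one]
  -- the derivative
  obtain ⟨a, ha⟩ : ∃ a : ℝ × ℝ × X, a = (1, 0, 0) := ⟨_, rfl⟩
  obtain ⟨F', hF'⟩ : ∃ F' : ℝ × ℝ × X →L[ℝ] W, HasFDerivAt F F' a :=
    ⟨_, (hFs.differentiable two_ne_zero a).hasFDerivAt⟩
  have k1 : F' (1, 0, 0) = 1 := by
    have hcv : HasDerivAt (fun t : ℝ => ((t, 0, 0) : ℝ × ℝ × X)) (1, 0, 0) 1 :=
      (hasDerivAt_id (1 : ℝ)).prodMk ((hasDerivAt_const (1 : ℝ) (0 : ℝ)).prodMk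
        (hasDerivAt_const (1 : ℝ) (0 : X)))
    rw [ha] at hF'
    have h3 : HasDerivAt (fun t : ℝ => F (t, 0, 0)) (F' (1, 0, 0)) 1 := hF'.comp_hasDerivAt 1 hcv
    have h4 : (fun t : ℝ => F (t, 0, 0)) = fun t : ℝ => (1 + t) • (1 : W) := funext hFP
    rw [h4] at h3
    have h5 : HasDerivAt (fun t : ℝ => (1 + t) • (1 : W)) ((1 : ℝ) • (1 : W)) 1 :=
      ((hasDerivAt_id (1 : ℝ)).const_add 1).smul_const (1 : W)
    rw [one_smul] at h5
    exact h3.unique h5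
  obtain ⟨L, hL, hLe⟩ := hder 1
  have k2 : ∀ (e : ℝ) (x : X), F' (0, e, x) = L (e, x) := by
    intro e x
    have hι : HasFDerivAt (fun p : ℝ × X => ((1, p) : ℝ × ℝ × X))
        ((0 : ℝ × X →L[ℝ] ℝ).prod (ContinuousLinearMap.id ℝ (ℝ × X))) 0 :=
      (hasFDerivAt_const (1 : ℝ) (0 : ℝ × X)).prodMk (hasFDerivAt_id (0 : ℝ × X))
    have hF1 : HasFDerivAt F F' ((fun p : ℝ × X => ((1, p) : ℝ × ℝ × X)) 0) := by
      rw [ha] at hF'
      exact hF'
    have h3 := hF1.comp (0 : ℝ × X) hι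
    have h4 : F ∘ (fun p : ℝ × X => ((1, p) : ℝ × ℝ × X)) = fun p : ℝ × X => NN 1 p.1 p.2 := by
      rw [hF]
      rfl
    rw [h4] at h3
    have h5 := h3.unique hL
    rw [← h5]
    rfl
  obtain ⟨T, hT⟩ : ∃ T : (ℝ × ℝ × X) ≃L[ℝ] (ℝ × ℝ × X), ∀ p, T p = (p.1, p.2.1, DD p.2.2) :=
    ⟨(ContinuousLinearEquiv.refl ℝ ℝ).prodCongr ((ContinuousLinearEquiv.refl ℝ ℝ).prodCongr DD),
      fun p => rfl⟩
  have hΦ' : HasFDerivAt Φ (T : ℝ × ℝ × X →L[ℝ] ℝ × ℝ × X) a := by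
    have h3 : HasFDerivAt (fun p : ℝ × ℝ × X => Pi' (F p)) (Pi'.comp F') a :=
      Pi'.hasFDerivAt.comp a hF'
    have h4 : HasFDerivAt (fun p : ℝ × ℝ × X => p.2.1)
        ((ContinuousLinearMap.fst ℝ ℝ X).comp (ContinuousLinearMap.snd ℝ ℝ (ℝ × X))) a :=
      hasFDerivAt_snd.fst
    have h5 : HasFDerivAt (fun p : ℝ × ℝ × X => p.1) (ContinuousLinearMap.fst ℝ ℝ (ℝ × X)) a :=
      hasFDerivAt_fst
    have h6 := h5.prodMk (h4.prodMk h3)
    rw [hΦ]
    refine h6.congr_fderiv ?_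
    refine ContinuousLinearMap.ext fun p => ?_
    rw [ContinuousLinearEquiv.coe_coe, hT]
    refine Prod.ext rfl (Prod.ext rfl ?_)
    show Pi' (F' p) = DD p.2.2
    obtain ⟨P', e', x'⟩ := p
    ext n
    rw [Pi_apply, DD_apply]
    show cf (-((n : ℤ) + 2)) (F' (P', e', x')) = (1 - 1 / ((n : ℝ) + 2)) * x' n
    have h7 : ((P', e', x') : ℝ × ℝ × X) = P' • (1, 0, 0) + (0, e', x') := by
      simp
    rw [h7, map_add, map_smul, k1, k2, map_add, map_smul, cf_one, if_neg (by omega), smul_zero,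
      zero_add, hLe, (h2 1 e' x').2 n]
    ring
  obtain ⟨Ψ, hΨs, hΨa, hΨr, hΨl⟩ := exists_inv hΦs hΦ'
  have hΦa : Φ a = (1, 0, 0) := by rw [ha]; exact hΦP 1
  rw [hΦa] at hΨs hΨa hΨr
  rw [ha] at hΨa hΨl
  -- the neighbourhoods
  have ev3 : ∀ᶠ y in 𝓝 ((1, 0, 0) : ℝ × ℝ × X), ‖(Ψ y).2.2‖ < δ := by
    have hc : ContinuousAt (fun y => ‖(Ψ y).2.2‖) ((1, 0, 0) : ℝ × ℝ × X) :=
      hΨs.continuousAt.snd.snd.norm
    apply hc.eventually_lt continuousAt_const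
    rw [hΨa]
    simpa using hδ
  obtain ⟨r1, hr1, H1⟩ := Metric.eventually_nhds_iff.1
    ((hΨs.eventually (by simp)).and (hΨr.and ev3))
  obtain ⟨r2, hr2, H2⟩ := Metric.eventually_nhds_iff.1 hΨl
  obtain ⟨η, hη⟩ : ∃ η : ℝ, η = min (min r1 r2) (min δ 1) / 2 := ⟨_, rfl⟩
  have hm0 : 0 < min (min r1 r2) (min δ 1) := lt_min (lt_min hr1 hr2) (lt_min hδ one_pos)
  have hη0 : 0 < η := by rw [hη]; positivity
  have hη1 : η < r1 := by
    have : min (min r1 r2) (min δ 1) ≤ r1 := (min_le_left _ _).trans (min_le_left _ _)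
    linarith
  have hη2 : η < r2 := by
    have : min (min r1 r2) (min δ 1) ≤ r2 := (min_le_left _ _).trans (min_le_right _ _)
    linarith
  have hη3 : η < δ := by
    have : min (min r1 r2) (min δ 1) ≤ δ := (min_le_right _ _).trans (min_le_left _ _)
    linarith
  have hη4 : η < 1 := by
    have : min (min r1 r2) (min δ 1) ≤ 1 := (min_le_right _ _).trans (min_le_right _ _)
    linarith
  have hdist : ∀ P e : ℝ, |P - 1| ≤ η → |e| ≤ η →
      dist ((P, e, 0) : ℝ × ℝ × X) (1, 0, 0) ≤ η := by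
    intro P e hP he
    rw [Prod.dist_eq, Prod.dist_eq]
    refine max_le ?_ (max_le ?_ ?_)
    · simpa [Real.dist_eq] using hP
    · simpa [Real.dist_eq] using he
    · simpa using hη0.le
  have G : ∀ P e : ℝ, |P - 1| ≤ η → |e| ≤ η → ContDiffAt ℝ 2 Ψ ((P, e, 0) : ℝ × ℝ × X) ∧
      Φ (Ψ (P, e, 0)) = (P, e, 0) ∧ ‖(Ψ (P, e, 0)).2.2‖ < δ := fun P e hP he =>
    H1 (lt_of_le_of_lt (hdist P e hP he) hη1)
  have G1 : ∀ P e : ℝ, |P - 1| ≤ η → |e| ≤ η →
      F (Ψ (P, e, 0)) = NN P e (Ψ (P, e, 0)).2.2 ∧ Pi' (F (Ψ (P, e, 0))) = 0 := by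
    intro P e hP he
    have h3 := (G P e hP he).2.1
    rw [hΦ] at h3
    simp only [Prod.mk.injEq] at h3
    obtain ⟨h4, h5, h6⟩ := h3
    refine ⟨?_, h6⟩
    rw [hF]
    simp only
    rw [h4, h5]
  have G0 : ∀ P : ℝ, |P - 1| ≤ η → Ψ (P, 0, 0) = (P, 0, 0) := by
    intro P hP
    have h3 := H2 (lt_of_le_of_lt (hdist P 0 hP (by simpa using hη0.le)) hη2)
    rw [hΦP] at h3
    exact h3
  obtain ⟨f, hf⟩ : ∃ f : ℝ → ℝ → ℝ, f = fun P e => cf (-1) (F (Ψ (P, e, 0))) := ⟨_, rfl⟩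
  have hf0 : ∀ P : ℝ, |P - 1| ≤ η → f P 0 = 0 := by
    intro P hP
    rw [hf]
    simp only
    rw [G0 P hP, hFP, map_smul, cf_one, if_neg (by norm_num), smul_zero]
  have hfd : ∀ P : ℝ, |P - 1| ≤ η → HasDerivAt (f P) (P * (1 - P)) 0 := by
    intro P hP
    obtain ⟨L, hL, hLe⟩ := hder P
    have hη' : |(0 : ℝ)| ≤ η := by simpa using hη0.le
    obtain ⟨Ψ', hΨ'⟩ : ∃ Ψ' : ℝ × ℝ × X →L[ℝ] ℝ × ℝ × X, HasFDerivAt Ψ Ψ' (P, 0, 0) :=
      ⟨_, ((G P 0 hP hη').1.differentiableAt two_ne_zero).hasFDerivAt⟩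
    have hcv : HasDerivAt (fun e : ℝ => ((P, e, 0) : ℝ × ℝ × X)) (0, 1, 0) 0 :=
      (hasDerivAt_const (0 : ℝ) P).prodMk ((hasDerivAt_id (0 : ℝ)).prodMk
        (hasDerivAt_const (0 : ℝ) (0 : X)))
    have hcomp : HasDerivAt (fun e : ℝ => Ψ (P, e, 0)) (Ψ' (0, 1, 0)) 0 :=
      hΨ'.comp_hasDerivAt 0 hcv
    have hξ : HasDerivAt (fun e : ℝ => (Ψ (P, e, 0)).2.2) (Ψ' (0, 1, 0)).2.2 0 :=
      ((ContinuousLinearMap.snd ℝ ℝ X).comp
        (ContinuousLinearMap.snd ℝ ℝ (ℝ × X))).hasFDerivAt.comp_hasDerivAt 0 hcomp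
    have hpair : HasDerivAt (fun e : ℝ => ((e, (Ψ (P, e, 0)).2.2) : ℝ × X))
        (1, (Ψ' (0, 1, 0)).2.2) 0 := (hasDerivAt_id (0 : ℝ)).prodMk hξ
    have hL0 : HasFDerivAt (fun p : ℝ × X => NN P p.1 p.2) L
        ((fun e : ℝ => ((e, (Ψ (P, e, 0)).2.2) : ℝ × X)) 0) := by
      simp only
      rw [G0 P hP]
      exact hL
    have hN0 := hL0.comp_hasDerivAt (0 : ℝ) hpair
    have hN : HasDerivAt (fun e : ℝ => NN P e (Ψ (P, e, 0)).2.2)
        (L (1, (Ψ' (0, 1, 0)).2.2)) 0 := hN0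
    have hcf : HasDerivAt (fun e : ℝ => cf (-1) (NN P e (Ψ (P, e, 0)).2.2))
        (cf (-1) (L (1, (Ψ' (0, 1, 0)).2.2))) 0 := (cf (-1)).hasFDerivAt.comp_hasDerivAt 0 hN
    rw [hLe, (h2 P 1 _).1, mul_one] at hcf
    refine hcf.congr_of_eventuallyEq ?_
    have hn : ∀ᶠ e in 𝓝 (0 : ℝ), |e| < η := by
      have : ContinuousAt (fun e : ℝ => |e|) 0 := continuous_abs.continuousAt
      apply this.eventually_lt continuousAt_const
      simpa using hη0
    filter_upwards [hn] with e he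
    rw [hf]
    simp only
    rw [(G1 P e hP he.le).1]
  -- the signs
  have hPa : |(1 - η) - 1| ≤ η := by
    rw [abs_le]
    constructor <;> linarith
  have hPb : |(1 + η) - 1| ≤ η := by
    rw [abs_le]
    constructor <;> linarith
  have ev1 := pos_of_deriv (hfd _ hPa) (hf0 _ hPa) (by nlinarith)
  have ev2 := pos_of_deriv (g := fun e => -(f (1 + η) e)) (hfd _ hPb).neg
    (by rw [hf0 _ hPb, neg_zero]) (by nlinarith)
  obtain ⟨e, he1, he2, he3⟩ := (ev1.and (ev2.and (Ioo_mem_nhdsGT hη0))).exists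
  have heη : |e| ≤ η := by
    rw [abs_of_pos he3.1]
    exact he3.2.le
  have hcont : ContinuousOn (fun P => f P e) (Icc (1 - η) (1 + η)) := by
    intro P hP
    have hP' : |P - 1| ≤ η := by
      rw [abs_le]
      constructor <;> linarith [hP.1, hP.2]
    apply ContinuousAt.continuousWithinAt
    rw [hf]
    have h3 : ContinuousAt Ψ ((fun P : ℝ => ((P, e, 0) : ℝ × ℝ × X)) P) :=
      (G P e hP' heη).1.continuousAt
    have h4 : ContinuousAt (fun P : ℝ => ((P, e, 0) : ℝ × ℝ × X)) P := by fun_prop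
    have h5 : ContinuousAt (fun P : ℝ => Ψ (P, e, 0)) P := ContinuousAt.comp h3 h4
    exact ((cf (-1)).continuous.comp hFs.continuous).continuousAt.comp h5
  have hiv := intermediate_value_Icc' (by linarith : 1 - η ≤ 1 + η) hcont
  have h0 : (0 : ℝ) ∈ Icc (f (1 + η) e) (f (1 - η) e) := by
    exact ⟨by linarith, he1.le⟩
  obtain ⟨P, hP, hPe⟩ := hiv h0
  have hP' : |P - 1| ≤ η := by
    rw [abs_le]
    constructor <;> linarith [hP.1, hP.2]
  obtain ⟨g1, g2⟩ := G1 P e hP' heη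
  refine ⟨P, e, (Ψ (P, e, 0)).2.2, he3.1, he3.2.trans hη3, lt_of_le_of_lt hP' hη3,
    (G P e hP' heη).2.2, ?_⟩
  intro k hk
  rw [← g1]
  rcases Nat.lt_or_ge k 2 with h3 | h3
  · have hk1 : k = 1 := by omega
    rw [hk1]
    rw [hf] at hPe
    exact hPe
  · obtain ⟨n, rfl⟩ : ∃ n, k = n + 2 := ⟨k - 2, by omega⟩
    have h4 : (Pi' (F (Ψ (P, e, 0)))) n = 0 := by rw [g2]; rfl
    rw [Pi_apply] at h4
    push_cast
    exact h4

end Pool.Agent.N572.HWIFT
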